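import Pool.Agent.H90.EH.Targets

set_option autoImplicit false

namespace Pool.Agent.H60.EH
open Finset Pool.Agent.H90.EH
open scoped Classical

lemma card_fix_sigma {G Y : Type} [Group G] [MulAction G Y] (m : ℕ) (g : G) :
    Nat.card (MulAction.fixedBy (Σ _ : Fin m, Y) g) = m * Nat.card (MulAction.fixedBy Y g) := by
  have h : MulAction.fixedBy (Σ _ : Fin m, Y) g ≃ Fin m × MulAction.fixedBy Y g :=
    { toFun := fun x => (x.1.1, ⟨x.1.2, by
        have h2 : g • x.1 = x.1 := x.2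
        obtain ⟨⟨i, y⟩, hx⟩ := x
        rw [Sigma.smul_mk] at h2
        have h3 := (Sigma.mk.inj_iff.1 h2).2
        exact eq_of_heq h3⟩)
      invFun := fun x => ⟨⟨x.1, x.2.1⟩, by
        have h2 : g • x.2.1 = x.2.1 := x.2.2
        rw [MulAction.mem_fixedBy, Sigma.smul_mk, h2]⟩
      left_inv := fun x => by rfl
      right_inv := fun x => by rfl }
  rw [Nat.card_congr h, Nat.card_prod, Nat.card_eq_fintype_card, Fintype.card_fin]

lemma card_fix_sum {G X Y : Type} [Group G] [MulAction G X] [MulAction G Y] [Finite X] [Finite Y]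
    (g : G) : Nat.card (MulAction.fixedBy (X ⊕ Y) g) =
      Nat.card (MulAction.fixedBy X g) + Nat.card (MulAction.fixedBy Y g) := by
  have h : MulAction.fixedBy X g ⊕ MulAction.fixedBy Y g ≃ MulAction.fixedBy (X ⊕ Y) g :=
    Equiv.ofBijective (Sum.elim (fun x => ⟨Sum.inl x.1, by
        have h2 : g • x.1 = x.1 := x.2
        rw [MulAction.mem_fixedBy, Sum.smul_inl, h2]⟩)
      (fun y => ⟨Sum.inr y.1, by
        have h2 : g • y.1 = y.1 := y.2
        rw [MulAction.mem_fixedBy, Sum.smul_inr, h2]⟩)) (by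
      constructor
      · rintro (x | x) (y | y) hxy
        · simp only [Sum.elim_inl, Subtype.mk.injEq, Sum.inl.injEq] at hxy
          rw [Subtype.ext hxy]
        · simp at hxy
        · simp at hxy
        · simp only [Sum.elim_inr, Subtype.mk.injEq, Sum.inr.injEq] at hxy
          rw [Subtype.ext hxy]
      · rintro ⟨x | x, hx⟩
        · rw [MulAction.mem_fixedBy, Sum.smul_inl] at hx
          exact ⟨Sum.inl ⟨x, Sum.inl_injective hx⟩, rfl⟩
        · rw [MulAction.mem_fixedBy, Sum.smul_inr] at hx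
          exact ⟨Sum.inr ⟨x, Sum.inr_injective hx⟩, rfl⟩)
  rw [← Nat.card_congr h, Nat.card_sum]

lemma mem_pow {G : Type} [Group G] [Finite G] (p r : ℕ) (g₀ : G) (hp : p.Prime)
    (ho : orderOf g₀ = p ^ r) {j s c : ℕ} (hj : j ≤ r) (hc : ¬ p ∣ c) :
    g₀ ^ (p ^ s * c) ∈ Subgroup.zpowers (g₀ ^ (p ^ j)) ↔ j ≤ s := by
  constructor
  · intro h
    obtain ⟨k, hk⟩ := Subgroup.mem_zpowers_iff.1 h
    by_contra hs
    push Not at hs
    have h1 : g₀ ^ ((p ^ j : ℕ) * k : ℤ) = g₀ ^ ((p ^ s * c : ℕ) : ℤ) := by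
      rw [zpow_mul, zpow_natCast, hk, zpow_natCast]
    have h2 : ((p ^ r : ℕ) : ℤ) ∣ (p ^ s * c : ℕ) - (p ^ j : ℕ) * k := by
      rw [← ho]
      exact (orderOf_dvd_sub_iff_zpow_eq_zpow).2 h1.symm
    have h3 : ((p ^ j : ℕ) : ℤ) ∣ (p ^ s * c : ℕ) := by
      have h4 : ((p ^ j : ℕ) : ℤ) ∣ ((p ^ r : ℕ) : ℤ) :=
        Int.natCast_dvd_natCast.2 (pow_dvd_pow p hj)
      have h5 := (h4.trans h2).add (Dvd.intro k rfl : ((p ^ j : ℕ) : ℤ) ∣ (p ^ j : ℕ) * k)
      rwa [sub_add_cancel] at h5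
    have h6 : p ^ j ∣ p ^ s * c := Int.natCast_dvd_natCast.1 h3
    have h7 : p ^ (s + 1) ∣ p ^ s * c := (pow_dvd_pow p hs).trans h6
    rw [pow_succ] at h7
    exact hc (Nat.dvd_of_mul_dvd_mul_left (pow_pos hp.pos s) h7)
  · intro h
    obtain ⟨t, rfl⟩ := Nat.exists_eq_add_of_le h
    rw [Subgroup.mem_zpowers_iff]
    refine ⟨((p ^ t * c : ℕ) : ℤ), ?_⟩
    rw [zpow_natCast, ← pow_mul]
    congr 1
    rw [pow_add]; ring

lemma card_fix_quot {G : Type} [Group G] [Finite G] (p r : ℕ) (g₀ : G) (hp : p.Prime)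
    (hG : Nat.card G = p ^ r) (hz : ∀ g : G, g ∈ Subgroup.zpowers g₀) {j s c : ℕ} (hj : j ≤ r)
    (hc : ¬ p ∣ c) :
    Nat.card (MulAction.fixedBy (G ⧸ Subgroup.zpowers (g₀ ^ (p ^ j))) (g₀ ^ (p ^ s * c))) =
      if j ≤ s then p ^ j else 0 := by
  have ho : orderOf g₀ = p ^ r := by
    rw [← hG]; exact orderOf_eq_card_of_forall_mem_zpowers hz
  have hcomm : ∀ x y : G, x * y = y * x := by
    intro x y
    obtain ⟨a, rfl⟩ := Subgroup.mem_zpowers_iff.1 (hz x)
    obtain ⟨b, rfl⟩ := Subgroup.mem_zpowers_iff.1 (hz y)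
    rw [← zpow_add, ← zpow_add, add_comm]
  have hmem := mem_pow p r g₀ hp ho (j := j) (s := s) (c := c) hj hc
  have hfix : ∀ x : G, g₀ ^ (p ^ s * c) • ((x : G) : G ⧸ Subgroup.zpowers (g₀ ^ (p ^ j))) =
      ((x : G) : G ⧸ Subgroup.zpowers (g₀ ^ (p ^ j))) ↔ j ≤ s := by
    intro x
    rw [← hmem, MulAction.Quotient.smul_coe, QuotientGroup.eq, smul_eq_mul]
    have h1 : (g₀ ^ (p ^ s * c) * x)⁻¹ * x = (g₀ ^ (p ^ s * c))⁻¹ := by
      rw [mul_inv_rev, hcomm x⁻¹ _, mul_assoc, inv_mul_cancel, mul_one]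
    rw [h1, inv_mem_iff]
  split_ifs with hs
  · have h1 : MulAction.fixedBy (G ⧸ Subgroup.zpowers (g₀ ^ (p ^ j))) (g₀ ^ (p ^ s * c)) =
        Set.univ := by
      ext y
      obtain ⟨x, rfl⟩ := QuotientGroup.mk_surjective y
      rw [MulAction.mem_fixedBy]
      simp only [Set.mem_univ, iff_true]
      exact (hfix x).2 hs
    rw [h1, Nat.card_congr (Equiv.Set.univ _)]
    have h2 := (Subgroup.zpowers (g₀ ^ (p ^ j))).index_mul_card
    have h3 : Nat.card (Subgroup.zpowers (g₀ ^ (p ^ j))) = p ^ (r - j) := by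
      rw [Nat.card_zpowers, orderOf_pow, ho, Nat.gcd_eq_right (pow_dvd_pow p hj),
        Nat.pow_div hj hp.pos]
    rw [h3, hG] at h2
    have h4 : p ^ r = p ^ j * p ^ (r - j) := by rw [← pow_add, Nat.add_sub_cancel' hj]
    rw [h4] at h2
    exact Nat.eq_of_mul_eq_mul_right (pow_pos hp.pos _) h2
  · have h1 : MulAction.fixedBy (G ⧸ Subgroup.zpowers (g₀ ^ (p ^ j))) (g₀ ^ (p ^ s * c)) = ∅ := by
      ext y
      obtain ⟨x, rfl⟩ := QuotientGroup.mk_surjective y
      rw [MulAction.mem_fixedBy]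
      simp only [Set.mem_empty_iff_false, iff_false]
      intro h
      exact hs ((hfix x).1 h)
    rw [h1]
    simp

theorem pf_EFF : T_EFF := by
  intro G _ _ p r g₀ hp hG hz a h0 hmono hdvd
  have key : ∀ j, j ≤ r → ∃ (X : Type) (_ : Finite X) (_ : MulAction G X), ∀ s, s ≤ r →
      ∀ c, ¬ p ∣ c → (Nat.card (MulAction.fixedBy X (g₀ ^ (p ^ s * c))) : ℤ) = a (min s j) := by
    intro j
    induction j with
    | zero =>
      intro _
      refine ⟨Σ _ : Fin (a 0).toNat, G ⧸ Subgroup.zpowers (g₀ ^ (p ^ 0)), inferInstance,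
        inferInstance, ?_⟩
      intro s _ c hc
      rw [card_fix_sigma, card_fix_quot p r g₀ hp hG hz (Nat.zero_le r) hc, if_pos (Nat.zero_le s)]
      simp [h0]
    | succ j ih =>
      intro hj
      obtain ⟨X, hX, hA, h⟩ := ih (by omega)
      obtain ⟨k, hk⟩ := hdvd j (by omega)
      have hk0 : 0 ≤ k := by
        have h1 := hmono j (by omega)
        have h2 : (0 : ℤ) < (p : ℤ) ^ (j + 1) := pow_pos (by exact_mod_cast hp.pos) _
        by_contra hneg
        push Not at hneg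
        have : (p : ℤ) ^ (j + 1) * k < 0 := mul_neg_of_pos_of_neg h2 hneg
        linarith
      refine ⟨X ⊕ (Σ _ : Fin k.toNat, G ⧸ Subgroup.zpowers (g₀ ^ (p ^ (j + 1)))), inferInstance,
        inferInstance, ?_⟩
      intro s hs c hc
      rw [card_fix_sum, card_fix_sigma, card_fix_quot p r g₀ hp hG hz hj hc]
      push_cast
      rw [h s hs c hc]
      split_ifs with hjs
      · rw [min_eq_right (by omega : j ≤ s), min_eq_right hjs]
        push_cast
        rw [Int.toNat_of_nonneg hk0]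
        linarith
      · rw [min_eq_left (by omega : s ≤ j), min_eq_left (by omega : s ≤ j + 1)]
        simp
  obtain ⟨X, hX, hA, h⟩ := key r le_rfl
  refine ⟨X, Fintype.ofFinite X, hA, ?_⟩
  intro s hs c hc
  rw [Fintype.card_eq_nat_card, h s hs c hc, min_eq_left hs]

end Pool.Agent.H60.EH
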